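import Pool.Agent.W896.HP.Facts
import Pool.Agent.H541R2.Lower

/-!
# Few phases and few nodes: the generalised inner product
-/

set_option autoImplicit false

namespace Pool.Agent.W896.HP

open Finset Pool.Agent.H541R2

variable {κ ι C : Type}

/-- The fact as a tuple. -/
def Fact.enc {S : Type} : Fact C S → Finset C × Finset C × Option (S × S) × S × S
  | .mono A q p => (A, ∅, none, q, p)
  | .ctx A B q' p' q p => (A, B, some (q', p'), q, p)

theorem Fact.enc_inj {S : Type} : Function.Injective (Fact.enc (C := C) (S := S)) := by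
  intro f g h
  cases f <;> cases g <;> simp_all [Fact.enc]

noncomputable instance {S : Type} [Fintype S] [Fintype C] : Fintype (Fact C S) := by
  classical
  exact Fintype.ofInjective _ Fact.enc_inj

theorem fact_card {S : Type} [Fintype S] [Fintype C] : Fintype.card (Fact C S) ≤
    2 ^ Fintype.card C * (2 ^ Fintype.card C *
      ((Fintype.card S * Fintype.card S + 1) * (Fintype.card S * Fintype.card S))) := by
  classical
  have h := Fintype.card_le_of_injective _ (Fact.enc_inj (C := C) (S := S))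
  simpa [Fintype.card_prod, Fintype.card_finset, Fintype.card_option] using h

/-- The list of the given facts. -/
def lst {S : Type} {L : ℕ} (θ : Fin L → Option (Fact C S)) : List (Fact C S) :=
  (List.ofFn θ).filterMap id

theorem mem_lst {S : Type} {L : ℕ} {θ : Fin L → Option (Fact C S)} {f : Fact C S} :
    f ∈ lst θ ↔ ∃ i, θ i = some f := by
  unfold lst
  rw [List.mem_filterMap]
  constructor
  · rintro ⟨o, ho, h⟩
    rw [List.mem_ofFn] at ho
    obtain ⟨i, rfl⟩ := ho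
    exact ⟨i, h⟩
  · rintro ⟨i, h⟩
    exact ⟨θ i, List.mem_ofFn.2 ⟨i, rfl⟩, h⟩

/-- The facts of at most `L` sets of files with at most `k` elements from which acceptance
follows. -/
def Valid (k : ℕ) (P : Prog κ ι) {L : ℕ} (θ : Fin L → Option (Fact C P.State)) : Prop :=
  (∀ f ∈ lst θ, (∀ A q p, f = .mono A q p → A.card ≤ k) ∧
    ∀ A B q' p' q p, f = .ctx A B q' p' q p → A.card ≤ k ∧ B.card ≤ k) ∧
  ∃ p, P.act p = Act.accept ∧ Good P (lst θ) P.start p

/-- The input is accepted in at most `m + 1` phases, in each of which at most `k` files are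
read. -/
def AccPh (k m : ℕ) (P : Prog κ ι) (χ : ι → C) (x : ι → Bool) : Prop :=
  ∃ l Col e, P.Acc x l ∧ (∀ t, (Col t).card ≤ k) ∧ Fits χ Col 0 l e ∧ e ≤ m

theorem AccPh.valid {k m : ℕ} {P : Prog κ ι} {χ : ι → C} {x : ι → Bool}
    (h : AccPh k m P χ x) : ∃ θ : Fin (3 * m + 1) → Option (Fact C P.State),
      Valid k P θ ∧ ∀ f ∈ lst θ, f.True P χ x := by
  obtain ⟨l, Col, e, h1, h2, h3, h4⟩ := h
  obtain ⟨p, h5, h6⟩ := acc_iff.1 h1
  obtain ⟨Θ, h7, h8, h9⟩ := PRet.facts h2 e 0 e P.start p (by omega) (h5.toPRet 0 e h3)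
  have hL : Θ.length ≤ 3 * m + 1 := by
    split_ifs at h7 <;> omega
  have hm : ∀ f, f ∈ lst (fun i : Fin (3 * m + 1) => Θ[i.val]?) → f ∈ Θ := by
    intro f hf
    obtain ⟨i, hi⟩ := mem_lst.1 hf
    exact List.mem_of_getElem? hi
  have hm' : ∀ f ∈ Θ, f ∈ lst (fun i : Fin (3 * m + 1) => Θ[i.val]?) := by
    intro f hf
    obtain ⟨i, hi, rfl⟩ := List.mem_iff_getElem.1 hf
    exact mem_lst.2 ⟨⟨i, by omega⟩, List.getElem?_eq_getElem hi⟩
  exact ⟨fun i => Θ[i.val]?, ⟨fun f hf => (h8 f (hm f hf)).2, p, h6, h9.weaken hm'⟩,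
    fun f hf => (h8 f (hm f hf)).1⟩

/-- The input given by the files. -/
def unc {K N : ℕ} (b : Fin K → Fin N → Bool) : Fin K × Fin N → Bool := fun p => b p.1 p.2

theorem valid_cyl {k N L : ℕ} (P : Prog κ (Fin (2 * k + 1) × Fin N))
    (θ : Fin L → Option (Fact (Fin (2 * k + 1)) P.State)) (hθ : Valid k P θ) :
    IsCyl {b : Fin (2 * k + 1) → Fin N → Bool | ∀ f ∈ lst θ, f.True P Prod.fst (unc b)} := by
  classical
  have hpl : ∀ f ∈ lst θ, ∃ i, i ∉ f.files := by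
    intro f hf
    by_contra hcon
    push Not at hcon
    have h1 : f.files = univ := by ext i; simp [hcon i]
    have h2 : f.files.card ≤ 2 * k := by
      have h3 := hθ.1 f hf
      cases f with
      | mono A q p =>
        have := h3.1 A q p rfl
        change A.card ≤ 2 * k
        omega
      | ctx A B q' p' q p =>
        have := h3.2 A B q' p' q p rfl
        have h4 := card_union_le A B
        change (A ∪ B).card ≤ 2 * k
        omega
    rw [h1, card_univ, Fintype.card_fin] at h2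
    omega
  have hpl' : ∀ f, ∃ i, f ∈ lst θ → i ∉ f.files := by
    intro f
    by_cases hf : f ∈ lst θ
    · obtain ⟨i, hi⟩ := hpl f hf
      exact ⟨i, fun _ => hi⟩
    · exact ⟨0, fun h => absurd h hf⟩
  choose pl hpl2 using hpl'
  refine ⟨fun i => {b | ∀ f ∈ lst θ, pl f = i → f.True P Prod.fst (unc b)}, ?_, ?_⟩
  · intro i b b' hb hD f hf hfi
    refine Fact.dep (hD f hf hfi) ?_
    rintro ⟨j, t⟩ hj
    have h1 := hpl2 f hf
    rw [hfi] at h1
    change b j t = b' j t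
    rw [hb j (by rintro rfl; exact h1 hj)]
  · intro b
    constructor
    · intro h i f hf _
      exact h f hf
    · intro h f hf
      exact h (pl f) f hf rfl

open Classical in
/-- The number of inputs which are accepted in few phases. -/
theorem accPh_card {k N m : ℕ} (P : Prog κ (Fin (2 * k + 1) × Fin N)) (σ : ℝ) (hσ : |σ| = 1)
    (hP : ∀ b : Fin (2 * k + 1) → Fin N → Bool, (∃ l, P.Acc (unc b) l) → gsign univ b = σ) :
    ((univ.filter (fun b : Fin (2 * k + 1) → Fin N → Bool =>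
      AccPh k m P Prod.fst (unc b))).card : ℝ) ≤
    ((Fintype.card (Fact (Fin (2 * k + 1)) P.State) + 1 : ℕ) : ℝ) ^ (3 * m + 1) *
      ((2 ^ N : ℝ) ^ (2 * k + 1) * (mu (2 * k)) ^ N) := by
  obtain ⟨S, hS⟩ : ∃ S : (Fin (3 * m + 1) → Option (Fact (Fin (2 * k + 1)) P.State)) →
      Set (Fin (2 * k + 1) → Fin N → Bool),
      ∀ θ, S θ = {b | ∀ f ∈ lst θ, f.True P Prod.fst (unc b)} := ⟨_, fun _ => rfl⟩
  have hcyl : ∀ θ, Valid k P θ → IsCyl (S θ) := fun θ hθ => by
    rw [hS]; exact valid_cyl P θ hθ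
  have hmem : ∀ θ b, b ∈ S θ ↔ ∀ f ∈ lst θ, f.True P Prod.fst (unc b) := fun θ b => by
    rw [hS]; exact Iff.rfl
  clear hS
  obtain ⟨G, hG⟩ : ∃ G : (Fin (3 * m + 1) → Option (Fact (Fin (2 * k + 1)) P.State)) →
      Finset (Fin (2 * k + 1) → Fin N → Bool),
      ∀ θ, G θ = if Valid k P θ then univ.filter (fun b => b ∈ S θ) else ∅ :=
    ⟨_, fun _ => rfl⟩
  have hsub : univ.filter (fun b : Fin (2 * k + 1) → Fin N → Bool =>
      AccPh k m P Prod.fst (unc b)) ⊆ univ.biUnion G := by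
    intro b hb
    rw [mem_filter] at hb
    obtain ⟨θ, h1, h2⟩ := hb.2.valid
    rw [mem_biUnion]
    refine ⟨θ, mem_univ _, ?_⟩
    rw [hG, if_pos h1, mem_filter, hmem]
    exact ⟨mem_univ _, h2⟩
  have h1 := (card_le_card hsub).trans card_biUnion_le
  have h2 : ∀ θ, ((G θ).card : ℝ) ≤ (2 ^ N : ℝ) ^ (2 * k + 1) * (mu (2 * k)) ^ N := by
    intro θ
    rw [hG]
    by_cases hθ : Valid k P θ
    · rw [if_pos hθ]
      refine cyl_card (g := 2 * k) (hcyl θ hθ) σ hσ ?_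
      intro b hb
      obtain ⟨p, h3, h4⟩ := hθ.2
      obtain ⟨l, hl⟩ := h4.toRet ((hmem θ b).1 hb)
      exact hP b ⟨l, acc_iff.2 ⟨p, hl, h3⟩⟩
    · rw [if_neg hθ]
      have := mu_nonneg (2 * k)
      simp only [card_empty, Nat.cast_zero]
      positivity
  calc ((univ.filter (fun b : Fin (2 * k + 1) → Fin N → Bool =>
      AccPh k m P Prod.fst (unc b))).card : ℝ) ≤ ∑ θ, ((G θ).card : ℝ) := by
        exact_mod_cast h1
    _ ≤ ∑ θ : Fin (3 * m + 1) → Option (Fact (Fin (2 * k + 1)) P.State),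
        (2 ^ N : ℝ) ^ (2 * k + 1) * (mu (2 * k)) ^ N := Finset.sum_le_sum (fun θ _ => h2 θ)
    _ = _ := by
        rw [Finset.sum_const, card_univ, nsmul_eq_mul, Fintype.card_fun, Fintype.card_option,
          Fintype.card_fin]
        push_cast
        ring

/-- The constant. -/
theorem exists_half (g : ℕ) : ∃ a : ℕ, 1 ≤ a ∧ (mu g) ^ a ≤ 1 / 2 := by
  obtain ⟨a, ha⟩ := exists_pow_lt_of_lt_one (show (0 : ℝ) < 1 / 2 by norm_num) (mu_lt_one g)
  refine ⟨a, ?_, ha.le⟩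
  rcases Nat.eq_zero_or_pos a with h | h
  · rw [h] at ha; norm_num at ha
  · exact h

theorem fact_bound {S : ℕ} {k : ℕ} :
    2 ^ (2 * k + 1) * (2 ^ (2 * k + 1) * ((S * S + 1) * (S * S))) + 1 ≤
      2 ^ (4 * k + 8 + 4 * Nat.log 2 S) := by
  rcases Nat.eq_zero_or_pos S with h | h
  · subst h
    simp only [mul_zero, zero_add]
    exact Nat.one_le_two_pow
  · have h1 : S < 2 ^ (Nat.log 2 S + 1) := Nat.lt_pow_succ_log_self (by norm_num) S
    have h2 : S * S ≤ 2 ^ (2 * Nat.log 2 S + 2) := by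
      calc S * S ≤ 2 ^ (Nat.log 2 S + 1) * 2 ^ (Nat.log 2 S + 1) := Nat.mul_le_mul h1.le h1.le
        _ = 2 ^ (2 * Nat.log 2 S + 2) := by rw [← pow_add]; congr 1; ring
    have h3 : 1 ≤ S * S := Nat.mul_pos h h
    have h4 : (S * S + 1) * (S * S) ≤ 2 ^ (4 * Nat.log 2 S + 5) := by
      calc (S * S + 1) * (S * S) ≤ (2 * 2 ^ (2 * Nat.log 2 S + 2)) * 2 ^ (2 * Nat.log 2 S + 2) :=
            Nat.mul_le_mul (by omega) h2
        _ = 2 ^ (4 * Nat.log 2 S + 5) := by
            rw [← pow_succ', ← pow_add]; congr 1; ring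
    have h5 : 2 ^ (2 * k + 1) * (2 ^ (2 * k + 1) * ((S * S + 1) * (S * S))) ≤
        2 ^ (4 * k + 7 + 4 * Nat.log 2 S) := by
      calc _ ≤ 2 ^ (2 * k + 1) * (2 ^ (2 * k + 1) * 2 ^ (4 * Nat.log 2 S + 5)) :=
            Nat.mul_le_mul_left _ (Nat.mul_le_mul_left _ h4)
        _ = 2 ^ (4 * k + 7 + 4 * Nat.log 2 S) := by
            rw [← pow_add, ← pow_add]; congr 1; ring
    have h6 : 2 ^ (4 * k + 8 + 4 * Nat.log 2 S) = 2 * 2 ^ (4 * k + 7 + 4 * Nat.log 2 S) := by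
      rw [← pow_succ']; congr 1; ring
    have h7 : 1 ≤ 2 ^ (4 * k + 7 + 4 * Nat.log 2 S) := Nat.one_le_two_pow
    omega

open Classical in
/-- **The lower bound for the generalised inner product.** -/
theorem gip_lower (k : ℕ) : ∃ a : ℕ, 1 ≤ a ∧ ∀ (N m q : ℕ)
    (P : Prog κ (Fin (2 * k + 1) × Fin N)) (σ : ℝ), (σ = 1 ∨ σ = -1) → a ≤ N →
    (∀ b : Fin (2 * k + 1) → Fin N → Bool, (∃ l, P.Acc (unc b) l) → gsign univ b = σ) →
    (univ.filter (fun b : Fin (2 * k + 1) → Fin N → Bool => gsign univ b = σ)).card ≤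
      2 ^ q * (univ.filter (fun b : Fin (2 * k + 1) → Fin N → Bool =>
        AccPh k m P Prod.fst (unc b))).card →
    N / a ≤ q + 2 + (3 * m + 1) * (4 * k + 8 + 4 * Nat.log 2 (Fintype.card P.State)) := by
  obtain ⟨a, ha, hmu⟩ := exists_half (2 * k)
  refine ⟨a, ha, ?_⟩
  intro N m q P σ hσ haN hP hq
  have hμ0 := mu_nonneg (2 * k)
  have hμ1 := (mu_lt_one (2 * k)).le
  have h1 := sign_card (2 * k) N σ hσ
  have h2 := accPh_card (m := m) P σ (by rcases hσ with h | h <;> rw [h] <;> norm_num) hP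
  have hmuN : (mu (2 * k)) ^ N ≤ (1 / 2) ^ (N / a) := by
    calc (mu (2 * k)) ^ N ≤ (mu (2 * k)) ^ (a * (N / a)) :=
          pow_le_pow_of_le_one hμ0 hμ1 (Nat.mul_div_le N a)
      _ = ((mu (2 * k)) ^ a) ^ (N / a) := by rw [pow_mul]
      _ ≤ (1 / 2) ^ (N / a) := pow_le_pow_left₀ (pow_nonneg hμ0 _) hmu _
  have hNa : 1 ≤ N / a := (Nat.one_le_div_iff (by omega)).2 haN
  have hhalf : (mu (2 * k)) ^ N ≤ 1 / 2 := by
    calc (mu (2 * k)) ^ N ≤ (1 / 2) ^ (N / a) := hmuN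
      _ ≤ (1 / 2) ^ 1 := pow_le_pow_of_le_one (by norm_num) (by norm_num) hNa
      _ = 1 / 2 := by norm_num
  set B : ℝ := (2 ^ N : ℝ) ^ (2 * k + 1) with hB
  have hBpos : 0 < B := by positivity
  set E : ℕ := 4 * k + 8 + 4 * Nat.log 2 (Fintype.card P.State) with hE
  have hF : Fintype.card (Fact (Fin (2 * k + 1)) P.State) + 1 ≤ 2 ^ E := by
    have h3 := fact_card (C := Fin (2 * k + 1)) (S := P.State)
    rw [Fintype.card_fin] at h3
    exact (Nat.add_le_add_right h3 1).trans fact_bound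
  have h3 : B / 4 ≤ 2 ^ q * ((2 : ℝ) ^ (E * (3 * m + 1)) * (B * (1 / 2) ^ (N / a))) := by
    calc B / 4 ≤ B * (1 - (mu (2 * k)) ^ N) / 2 := by nlinarith
      _ ≤ _ := h1
      _ ≤ ((2 ^ q * (univ.filter (fun b : Fin (2 * k + 1) → Fin N → Bool =>
        AccPh k m P Prod.fst (unc b))).card : ℕ) : ℝ) := by exact_mod_cast hq
      _ = 2 ^ q * ((univ.filter (fun b : Fin (2 * k + 1) → Fin N → Bool =>
        AccPh k m P Prod.fst (unc b))).card : ℝ) := by push_cast; ring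
      _ ≤ 2 ^ q * (((Fintype.card (Fact (Fin (2 * k + 1)) P.State) + 1 : ℕ) : ℝ) ^ (3 * m + 1) *
          (B * (mu (2 * k)) ^ N)) := by gcongr
      _ ≤ 2 ^ q * (((2 ^ E : ℕ) : ℝ) ^ (3 * m + 1) * (B * (1 / 2) ^ (N / a))) := by
          gcongr
      _ = _ := by rw [pow_mul]; push_cast; ring
  have h4 : (2 : ℝ) ^ (N / a) ≤ 2 ^ (q + 2 + E * (3 * m + 1)) := by
    have h5 : (1 / 2 : ℝ) ^ (N / a) * 2 ^ (N / a) = 1 := by
      rw [← mul_pow]; norm_num
    have h6 : B * 2 ^ (N / a) ≤ B * 2 ^ (q + 2 + E * (3 * m + 1)) := by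
      calc B * 2 ^ (N / a) = 4 * (B / 4) * 2 ^ (N / a) := by ring
        _ ≤ 4 * (2 ^ q * ((2 : ℝ) ^ (E * (3 * m + 1)) * (B * (1 / 2) ^ (N / a)))) * 2 ^ (N / a) := by
            gcongr
        _ = 4 * 2 ^ q * (2 : ℝ) ^ (E * (3 * m + 1)) * B * ((1 / 2) ^ (N / a) * 2 ^ (N / a)) := by
            ring
        _ = B * 2 ^ (q + 2 + E * (3 * m + 1)) := by
            rw [h5, pow_add, pow_add]; ring
    exact le_of_mul_le_mul_left h6 hBpos
  have h5 := (pow_le_pow_iff_right₀ (show (1 : ℝ) < 2 by norm_num)).1 h4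
  calc N / a ≤ q + 2 + E * (3 * m + 1) := h5
    _ = _ := by ring

end Pool.Agent.W896.HP
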