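import Pool.Agent.W896.HP.Gip
import Pool.Agent.W896.HP.Cyl
import Pool.Agent.H538R4.SP.Sat

/-!
# The product of the head movement and the logarithm of the number of nodes is quadratic
-/

set_option autoImplicit false

open Finset

namespace Pool.Agent.W896.HP

open Pool.Agent.H554R2.Cnf Pool.Agent.H541R2

/-- Arithmetic. -/
theorem arith {k K D1 a D c1 M T L lg : ℕ} (hK : 1 ≤ K) (hD2 : 1 ≤ D1 * a)
    (hD : D = 16 * K * (D1 * a) * (2 + (3 * k + 3) * c1)) (hMD : D ≤ M) (hL : L = M / (2 * K))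
    (h : M / (D1 * a) ≤ M / D + 2 + (3 * (T / L + k) + 1) * (c1 * (lg + 1))) :
    M * M ≤ D * ((T + M) * (lg + 1)) := by
  obtain ⟨D2, hD2e⟩ : ∃ D2, D2 = D1 * a := ⟨_, rfl⟩
  rw [← hD2e] at h hD hD2
  have hbig : 16 * K * D2 ≤ D := by
    rw [hD]
    exact Nat.le_mul_of_pos_right _ (by omega)
  have h4K : 4 * K ≤ M := by nlinarith
  have h4D : 4 * D2 ≤ D := by nlinarith
  have hL1 : M ≤ 4 * K * L := by
    have h1 : M < 2 * K * (M / (2 * K) + 1) := Nat.lt_mul_div_succ M (by omega)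
    rw [← hL] at h1
    nlinarith
  have hL2 : L ≤ M := by rw [hL]; exact Nat.div_le_self _ _
  have hLpos : 0 < L := by
    rcases Nat.eq_zero_or_pos L with h0 | h0
    · rw [h0] at hL1; omega
    · exact h0
  have hD3 : M ≤ 2 * D2 * (M / D2) := by
    have h1 : M < D2 * (M / D2 + 1) := Nat.lt_mul_div_succ M (by omega)
    nlinarith
  have hMD2 : 2 * (M / D) ≤ M / D2 := by
    have h1 : D * (M / D) ≤ M := Nat.mul_div_le M D
    have h2 : 4 * D2 * (M / D) ≤ 2 * D2 * (M / D2) :=
      (Nat.mul_le_mul_right _ h4D).trans (h1.trans hD3)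
    have h3 : (2 * D2) * (2 * (M / D)) ≤ (2 * D2) * (M / D2) := by
      calc (2 * D2) * (2 * (M / D)) = 4 * D2 * (M / D) := by ring
        _ ≤ _ := h2
    exact Nat.le_of_mul_le_mul_left h3 (by omega)
  obtain ⟨X, hX⟩ : ∃ X, X = lg + 1 := ⟨_, rfl⟩
  rw [← hX] at h ⊢
  have hX1 : 1 ≤ X := by omega
  have hT : T / L * L ≤ T := Nat.div_mul_le_self T L
  have h1 : M / D2 ≤ 2 * (2 + (3 * (T / L + k) + 1) * (c1 * X)) := by omega
  have h2 : L * (M / D2) ≤ 2 * (2 * M + (3 * T + (3 * k + 1) * M) * (c1 * X)) := by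
    calc L * (M / D2) ≤ L * (2 * (2 + (3 * (T / L + k) + 1) * (c1 * X))) :=
          Nat.mul_le_mul_left _ h1
      _ = 2 * (2 * L + (3 * (T / L * L) + (3 * k + 1) * L) * (c1 * X)) := by ring
      _ ≤ 2 * (2 * M + (3 * T + (3 * k + 1) * M) * (c1 * X)) := by gcongr
  have h3 : 2 * M + (3 * T + (3 * k + 1) * M) * (c1 * X) ≤
      (2 + (3 * k + 3) * c1) * ((T + M) * X) := by
    calc 2 * M + (3 * T + (3 * k + 1) * M) * (c1 * X) ≤
        2 * ((T + M) * X) + ((3 * k + 3) * (T + M)) * (c1 * X) := by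
          have a1 : M ≤ (T + M) * X := by nlinarith
          have a2 : 3 * T + (3 * k + 1) * M ≤ (3 * k + 3) * (T + M) := by nlinarith
          gcongr
      _ = _ := by ring
  calc M * M ≤ (4 * K * L) * (2 * D2 * (M / D2)) := Nat.mul_le_mul hL1 hD3
    _ = 8 * K * D2 * (L * (M / D2)) := by ring
    _ ≤ 8 * K * D2 * (2 * ((2 + (3 * k + 3) * c1) * ((T + M) * X))) :=
        Nat.mul_le_mul_left _ (h2.trans (Nat.mul_le_mul_left _ h3))
    _ = D * ((T + M) * X) := by rw [hD]; ring

theorem final (k : ℕ) : ∃ D : ℕ, 0 < D ∧ ∀ (M ℓ T : ℕ), M ≤ 2 ^ ℓ →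
    ∀ (Q : (Idx M ℓ → Bool) → Prop), (Q = Sat3 ∨ Q = fun w => ¬ Sat3 w) →
    ∀ (R : Type) [Fintype R] [Nonempty R] (U : R → Prog (Fin k) (Idx M ℓ)),
      (∀ r w l, (U r).Acc w l → Q w) →
      (∀ w, Q w → Nat.card R ≤ 2 ^ (M / D) *
        Nat.card {r // ∃ l, (U r).Acc w l ∧ travel (fun v => v.1.val) l ≤ T}) →
      ∃ r, M * M ≤ D * ((T + M) * (Nat.log 2 (Fintype.card (U r).State) + 1)) := by
  classical
  obtain ⟨a, ha, hgip⟩ := gip_lower (κ := Fin k) k
  obtain ⟨K, hKe⟩ : ∃ K, K = 2 * k + 1 := ⟨_, rfl⟩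
  obtain ⟨D1, hD1⟩ : ∃ D1, D1 = 5 * K + 6 := ⟨_, rfl⟩
  obtain ⟨D, hD⟩ : ∃ D, D = 16 * K * (D1 * a) * (2 + (3 * k + 3) * (4 * k + 8)) := ⟨_, rfl⟩
  have hD2 : 1 ≤ D1 * a := Nat.mul_pos (by omega) (by omega)
  have hbig : 16 * K * (D1 * a) ≤ D := by
    rw [hD]
    exact Nat.le_mul_of_pos_right _ (by omega)
  have hDD : D1 * a ≤ D := by nlinarith
  refine ⟨D, by omega, ?_⟩
  intro M ℓ T hℓ Q hQ R _ _ U hU hl
  rcases Nat.lt_or_ge M D with hMD | hMD
  · obtain ⟨r⟩ := (inferInstance : Nonempty R)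
    refine ⟨r, ?_⟩
    calc M * M ≤ D * M := Nat.mul_le_mul_right _ hMD.le
      _ ≤ D * ((T + M) * (Nat.log 2 (Fintype.card (U r).State) + 1)) := by
          apply Nat.mul_le_mul_left
          calc M ≤ (T + M) * 1 := by omega
            _ ≤ _ := Nat.mul_le_mul_left _ (by omega)
  · obtain ⟨L, hL⟩ : ∃ L, L = M / (2 * K) := ⟨_, rfl⟩
    obtain ⟨N, hN⟩ : ∃ N, N = M / D1 := ⟨_, rfl⟩
    have hNa : a ≤ N := by
      rw [hN, Nat.le_div_iff_mul_le (by omega), mul_comm]
      exact hDD.trans hMD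
    have hN1 : 1 ≤ N := by omega
    have hND : N * D1 ≤ M := by rw [hN]; exact Nat.div_mul_le_self _ _
    have hNL : N ≤ L := by
      rw [hN, hL]
      exact Nat.div_le_div_left (by omega) (by omega)
    have hLK : 2 * K * L ≤ M := by rw [hL]; exact Nat.mul_div_le _ _
    have hcap : K * N + 2 + 4 * (N * (K + 1)) ≤ M := by
      have : N * D1 = K * N + 4 * (N * (K + 1)) + 2 * N := by rw [hD1]; ring
      omega
    -- the positions
    have hlt : ∀ i : Fin K × Fin N, i.1.val * (2 * L) + i.2.val < M := by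
      rintro ⟨f, j⟩
      have h1 := f.isLt
      have h2 := j.isLt
      simp only
      have h3 : (f.val + 1) * (2 * L) ≤ K * (2 * L) := Nat.mul_le_mul_right _ h1
      have h4 : (f.val + 1) * (2 * L) = f.val * (2 * L) + 2 * L := by ring
      have h5 : K * (2 * L) = 2 * K * L := by ring
      omega
    have hsep : ∀ i j : Fin K × Fin N, i.1 ≠ j.1 → L ≤
        Nat.dist (i.1.val * (2 * L) + i.2.val) (j.1.val * (2 * L) + j.2.val) := by
      rintro ⟨f, s⟩ ⟨f', s'⟩ hff
      have h1 := s.isLt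
      have h2 := s'.isLt
      simp only at hff ⊢
      have hne : f.val ≠ f'.val := fun h => hff (Fin.ext h)
      rcases Nat.lt_or_ge f.val f'.val with h3 | h3
      · have h4 : (f.val + 1) * (2 * L) ≤ f'.val * (2 * L) := Nat.mul_le_mul_right _ h3
        have h5 : (f.val + 1) * (2 * L) = f.val * (2 * L) + 2 * L := by ring
        rw [Nat.dist_eq_sub_of_le (by omega)]
        omega
      · have h3' : f'.val + 1 ≤ f.val := by omega
        have h4 : (f'.val + 1) * (2 * L) ≤ f.val * (2 * L) := Nat.mul_le_mul_right _ h3'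
        have h5 : (f'.val + 1) * (2 * L) = f'.val * (2 * L) + 2 * L := by ring
        rw [Nat.dist_eq_sub_of_le_right (by omega)]
        omega
    obtain ⟨e₀, he₀⟩ : ∃ e₀ : Fin K × Fin N ↪ Fin M,
        ∀ i, (e₀ i).val = i.1.val * (2 * L) + i.2.val := by
      refine ⟨⟨fun i => ⟨i.1.val * (2 * L) + i.2.val, hlt i⟩, ?_⟩, fun i => rfl⟩
      intro i j hij
      have h1 : i.1.val * (2 * L) + i.2.val = j.1.val * (2 * L) + j.2.val := by
        simpa using hij
      by_cases h2 : i.1 = j.1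
      · rw [h2] at h1
        exact Prod.ext h2 (Fin.ext (by omega))
      · have h3 := hsep i j h2
        rw [h1, Nat.dist_self] at h3
        omega
    -- the instance
    obtain ⟨b, τ, hb⟩ : ∃ (b : Idx M ℓ → Bool) (τ : Bool), ∀ x : Fin K × Fin N → Bool,
        Q (fill (fun i => (sgn ℓ (e₀ i) : Idx M ℓ)) b x) ↔
        decide (Odd (univ.filter (fun j : Fin N => ∀ i, x (i, j) = true)).card) = τ := by
      obtain ⟨b, hb⟩ := gip_sat (by omega) hN1 e₀ hcap (hcap.trans hℓ) true
      rcases hQ with rfl | rfl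
      · exact ⟨b, true, hb⟩
      · refine ⟨b, false, fun x => ?_⟩
        simp only [hb x, Bool.not_eq_true]
    subst hKe
    set p : Fin (2 * k + 1) × Fin N → Idx M ℓ := fun i => sgn ℓ (e₀ i) with hp
    have hpinj : Function.Injective p := by
      intro i j hij
      have h1 : (p i).1 = (p j).1 := congrArg Prod.fst hij
      exact e₀.injective h1
    obtain ⟨σ, hσ, hσ'⟩ : ∃ σ : ℝ, (σ = 1 ∨ σ = -1) ∧
        ∀ b' : Fin (2 * k + 1) → Fin N → Bool, Q (fill p b (unc b')) ↔ gsign univ b' = σ := by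
      refine ⟨if τ then -1 else 1, by cases τ <;> simp, fun b' => ?_⟩
      rw [hb (unc b'), gsign_eq]
      have e : (univ.filter (fun j : Fin N => ∀ i, unc b' (i, j) = true)) =
          univ.filter (fun j : Fin N => ∀ i, b' i j = true) := rfl
      rw [e]
      by_cases ho : Odd (univ.filter (fun j : Fin N => ∀ i, b' i j = true)).card
      · cases τ
        · simp only [ho, decide_true, if_true]; norm_num
        · simp [ho]
      · cases τ
        · simp [ho]
        · simp only [ho, decide_false, if_false, if_true]; norm_num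
    obtain ⟨r, hr⟩ := Pool.Agent.H538R4.SP.average
      (fun b' : Fin (2 * k + 1) → Fin N → Bool => Q (fill p b (unc b')))
      (fun r b' => ∃ l, (U r).Acc (fill p b (unc b')) l ∧ travel (fun v => v.1.val) l ≤ T)
      (M / D) (fun b' hb' => hl _ hb')
    refine ⟨r, ?_⟩
    have key := hgip N (T / L + k) (M / D) (fixP p b (U r)) σ hσ hNa (by
      rintro b' ⟨l, hl'⟩
      obtain ⟨l', hl''⟩ := fixP_sound hl'
      exact (hσ' b').1 (hU r _ l' hl'')) (by
      rw [Nat.card_eq_fintype_card, Fintype.card_subtype, Nat.card_eq_fintype_card,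
        Fintype.card_subtype] at hr
      have e1 : (univ.filter (fun b' : Fin (2 * k + 1) → Fin N → Bool =>
          Q (fill p b (unc b')))).card =
          (univ.filter (fun b' : Fin (2 * k + 1) → Fin N → Bool => gsign univ b' = σ)).card :=
        congrArg card (filter_congr (fun b' _ => hσ' b'))
      rw [← e1]
      refine hr.trans (Nat.mul_le_mul_left _ (card_le_card ?_))
      intro b' hb'
      rw [mem_filter] at hb' ⊢
      refine ⟨mem_univ _, ?_⟩
      obtain ⟨l, h1, h2⟩ := hb'.2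
      have h3 : (fixP p b (U r)).Acc (unc b') (sub p l) := fixP_complete h1
      obtain ⟨Col, e, h4, h5, -, h6⟩ := phases (κ := Fin k)
        (Prod.fst : Fin (2 * k + 1) × Fin N → Fin (2 * k + 1)) 0
        (fun i => (p i).1.val) L (by
          intro i j hij
          have := hsep i j hij
          change L ≤ Nat.dist (e₀ i).val (e₀ j).val
          rw [he₀, he₀]
          exact this) (sub p l)
      refine ⟨sub p l, Col, e, h3, fun t => by simpa using h4 t, h5, ?_⟩
      have h7 := h6.trans (poten_le _ _ _)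
      have h8 := travel_sub p (fun v : Idx M ℓ => v.1.val) l
      rw [Fintype.card_fin] at h7
      have hLpos : 0 < L := by omega
      have h9 : e * L ≤ T + k * L := by
        refine h7.trans ?_
        have : travel (fun i => (p i).1.val) (sub p l) ≤ T := h8.trans h2
        omega
      have h10 : e ≤ (T + k * L) / L := (Nat.le_div_iff_mul_le hLpos).2 h9
      rwa [Nat.add_mul_div_right _ _ hLpos] at h10)
    have hNa' : N / a = M / (D1 * a) := by rw [hN, Nat.div_div_eq_div_mul]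
    rw [hNa'] at key
    refine arith (c1 := 4 * k + 8) (by omega) hD2 hD hMD hL (key.trans ?_)
    refine Nat.add_le_add_left (Nat.mul_le_mul_left _ ?_) _
    change 4 * k + 8 + 4 * Nat.log 2 (Fintype.card (U r).State) ≤ _
    nlinarith

end Pool.Agent.W896.HP
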