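import Pool.Agent.W896.HP.Tseitin
import Pool.Agent.H541R2.GIP

/-!
# The generalised inner product as an instance of 3-SAT
-/

set_option autoImplicit false

open Finset

namespace Pool.Agent.W896.HP

open Pool.Agent.H554R2.Cnf

/-- The columns `j' ≤ j` in which all bits are `true`. -/
def cols {K N : ℕ} (x : Fin K × Fin N → Bool) (j : Fin N) : Finset (Fin N) :=
  univ.filter (fun j' => j' ≤ j ∧ ∀ i, x (i, j') = true)

/-- The values of the gates. -/
def gval {K N : ℕ} (x : Fin K × Fin N → Bool) (g : Fin N × Fin (K + 1)) : Bool :=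
  if g.2.val < K then decide (∀ i' : Fin K, i'.val ≤ g.2.val → x (i', g.1) = true)
  else decide (Odd (cols x g.1).card)

/-- The first input of a gate. -/
def gA {K N : ℕ} (hK : 0 < K) (g : Fin N × Fin (K + 1)) :
    (Fin K × Fin N) ⊕ (Fin N × Fin (K + 1)) :=
  if h : g.2.val < K then .inl (⟨g.2.val, h⟩, g.1) else .inr (g.1, ⟨K - 1, by omega⟩)

/-- The second input of a gate. -/
def gB {K N : ℕ} (hK : 0 < K) (g : Fin N × Fin (K + 1)) :
    (Fin K × Fin N) ⊕ (Fin N × Fin (K + 1)) :=
  if g.2.val = 0 then .inl (⟨0, hK⟩, g.1)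
  else if g.2.val < K then .inr (g.1, ⟨g.2.val - 1, by omega⟩)
  else if g.1.val = 0 then .inr (g.1, ⟨K - 1, by omega⟩)
  else .inr (⟨g.1.val - 1, by omega⟩, ⟨K, by omega⟩)

/-- The function of a gate. -/
def gop {K N : ℕ} (g : Fin N × Fin (K + 1)) (a c : Bool) : Bool :=
  if g.2.val = 0 then a else if g.2.val < K then a && c
  else if g.1.val = 0 then a else xor a c

theorem cols_succ {K N : ℕ} (x : Fin K × Fin N → Bool) (j : Fin N) (hj : j.val ≠ 0) :
    Odd (cols x j).card ↔
      Xor (∀ i, x (i, j) = true) (Odd (cols x ⟨j.val - 1, by omega⟩).card) := by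
  by_cases h : ∀ i, x (i, j) = true
  · have e : cols x j = insert j (cols x ⟨j.val - 1, by omega⟩) := by
      ext j'
      simp only [cols, mem_filter, mem_univ, true_and, mem_insert]
      constructor
      · rintro ⟨h1, h2⟩
        by_cases h3 : j' = j
        · exact Or.inl h3
        · refine Or.inr ⟨?_, h2⟩
          have h4 : j'.val ≠ j.val := fun h => h3 (Fin.ext h)
          have h5 : j'.val ≤ j.val := h1
          change j'.val ≤ j.val - 1
          omega
      · rintro (h1 | ⟨h1, h2⟩)
        · subst h1; exact ⟨le_rfl, h⟩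
        · have h5 : j'.val ≤ j.val - 1 := h1
          exact ⟨by change j'.val ≤ j.val; omega, h2⟩
    have hn : j ∉ cols x ⟨j.val - 1, by omega⟩ := by
      simp only [cols, mem_filter, mem_univ, true_and, not_and]
      intro h1
      have h5 : j.val ≤ j.val - 1 := h1
      omega
    rw [e, card_insert_of_notMem hn]
    rw [Nat.odd_add_one]
    simp only [Xor, h, implies_true, true_and, not_true_eq_false, and_false, or_false]
  · have e : cols x j = cols x ⟨j.val - 1, by omega⟩ := by
      ext j'
      simp only [cols, mem_filter, mem_univ, true_and]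
      constructor
      · rintro ⟨h1, h2⟩
        have h3 : j' ≠ j := by rintro rfl; exact h h2
        have h4 : j'.val ≠ j.val := fun h => h3 (Fin.ext h)
        have h5 : j'.val ≤ j.val := h1
        exact ⟨by change j'.val ≤ j.val - 1; omega, h2⟩
      · rintro ⟨h1, h2⟩
        have h5 : j'.val ≤ j.val - 1 := h1
        exact ⟨by change j'.val ≤ j.val; omega, h2⟩
    rw [e]
    simp only [Xor, h, false_and, not_false_eq_true, and_true, false_or]

theorem gval_eq {K N : ℕ} (hK : 0 < K) (x : Fin K × Fin N → Bool) (g : Fin N × Fin (K + 1)) :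
    gval x g = gop g (Sum.elim x (gval x) (gA hK g)) (Sum.elim x (gval x) (gB hK g)) := by
  obtain ⟨j, i⟩ := g
  by_cases hi : i.val < K
  · have hAe : gA hK (j, i) = .inl (⟨i.val, hi⟩, j) := by
      unfold gA; rw [dif_pos hi]
    rw [hAe, Sum.elim_inl]
    by_cases h0 : i.val = 0
    · unfold gop gval
      rw [if_pos hi, if_pos h0]
      have h1 : (∀ i' : Fin K, i'.val ≤ i.val → x (i', j) = true) ↔
          x (⟨i.val, hi⟩, j) = true := by
        constructor
        · intro h; exact h ⟨i.val, hi⟩ le_rfl
        · intro h i' hi'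
          have : i' = ⟨i.val, hi⟩ := Fin.ext (by simp only; omega)
          rw [this]; exact h
      simp only [h1, Bool.decide_eq_true]
    · have hBe : gB hK (j, i) = .inr (j, ⟨i.val - 1, by omega⟩) := by
        unfold gB; rw [if_neg h0, if_pos hi]
      rw [hBe, Sum.elim_inr]
      unfold gop gval
      rw [if_pos hi, if_neg h0, if_pos hi, if_pos (show i.val - 1 < K by omega)]
      have h1 : (∀ i' : Fin K, i'.val ≤ i.val → x (i', j) = true) ↔
          (x (⟨i.val, hi⟩, j) = true ∧ ∀ i' : Fin K, i'.val ≤ i.val - 1 → x (i', j) = true) := by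
        constructor
        · intro h
          exact ⟨h ⟨i.val, hi⟩ le_rfl, fun i' hi' => h i' (by omega)⟩
        · rintro ⟨h, h'⟩ i' hi'
          by_cases h2 : i'.val = i.val
          · have : i' = ⟨i.val, hi⟩ := Fin.ext h2
            rw [this]; exact h
          · exact h' i' (by omega)
      simp only [h1, Bool.decide_and, Bool.decide_eq_true]
  · have hi' : i.val = K := by omega
    have hAe : gA hK (j, i) = .inr (j, ⟨K - 1, by omega⟩) := by
      unfold gA; rw [dif_neg hi]
    have hlast : gval x (j, ⟨K - 1, by omega⟩) = decide (∀ i, x (i, j) = true) := by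
      unfold gval
      rw [if_pos (show K - 1 < K by omega)]
      congr 1
      apply propext
      constructor
      · intro h i; exact h i (by simp only; omega)
      · intro h i _; exact h i
    rw [hAe, Sum.elim_inr, hlast]
    by_cases h0 : j.val = 0
    · unfold gop gval
      rw [if_neg hi, if_neg (show ¬ i.val = 0 by omega), if_neg hi, if_pos h0]
      congr 1
      apply propext
      by_cases h : ∀ i, x (i, j) = true
      · have : cols x j = {j} := by
          ext j'
          simp only [cols, mem_filter, mem_univ, true_and, mem_singleton]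
          constructor
          · rintro ⟨h1, _⟩
            have h5 : j'.val ≤ j.val := h1
            exact Fin.ext (by omega)
          · rintro rfl; exact ⟨le_rfl, h⟩
        rw [this]
        simp [h]
      · have : cols x j = ∅ := by
          ext j'
          simp only [cols, mem_filter, mem_univ, true_and, notMem_empty, iff_false, not_and]
          intro h1 h2
          have h5 : j'.val ≤ j.val := h1
          have : j' = j := Fin.ext (by omega)
          rw [this] at h2
          exact h h2
        rw [this]
        simp [h]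
    · have hBe : gB hK (j, i) = .inr (⟨j.val - 1, by omega⟩, ⟨K, by omega⟩) := by
        unfold gB; rw [if_neg (by simp only; omega), if_neg hi, if_neg h0]
      rw [hBe, Sum.elim_inr]
      have e1 : gval x (j, i) = decide (Odd (cols x j).card) := by
        unfold gval; rw [if_neg hi]
      have e2 : gval x (⟨j.val - 1, by omega⟩, ⟨K, by omega⟩) =
          decide (Odd (cols x ⟨j.val - 1, by omega⟩).card) := by
        unfold gval; rw [if_neg (by simp)]
      rw [e1, e2]
      have e3 : gop (j, i) (decide (∀ i, x (i, j) = true))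
          (decide (Odd (cols x ⟨j.val - 1, by omega⟩).card)) =
          xor (decide (∀ i, x (i, j) = true))
          (decide (Odd (cols x ⟨j.val - 1, by omega⟩).card)) := by
        unfold gop
        rw [if_neg (by simp only; omega), if_neg hi, if_neg h0]
      rw [e3]
      have e4 := cols_succ x j h0
      by_cases h1 : ∀ i, x (i, j) = true <;>
        by_cases h2 : Odd (cols x ⟨j.val - 1, by omega⟩).card <;>
        simp [e4, Xor, h1, h2]

theorem gip_sat {K N M ℓ : ℕ} (hK : 0 < K) (hN : 0 < N) (e₀ : Fin K × Fin N ↪ Fin M)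
    (hM : K * N + 2 + 4 * (N * (K + 1)) ≤ M) (hℓ : K * N + 2 + 4 * (N * (K + 1)) ≤ 2 ^ ℓ)
    (τ : Bool) : ∃ b : Idx M ℓ → Bool, ∀ x : Fin K × Fin N → Bool,
      Sat3 (fill (fun i => (sgn ℓ (e₀ i) : Idx M ℓ)) b x) ↔
        decide (Odd (univ.filter (fun j : Fin N => ∀ i, x (i, j) = true)).card) = τ := by
  obtain ⟨b, hb⟩ := tseitin (gA (N := N) hK) (gB hK) gop
    (fun g => g.1.val * (K + 1) + g.2.val) (by
      rintro ⟨j, i⟩ ⟨j', i'⟩ h
      unfold gA at h
      split_ifs at h with h1
      rw [Sum.inr.injEq, Prod.mk.injEq] at h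
      obtain ⟨rfl, rfl⟩ := h
      simp only at h1 ⊢
      omega) (by
      rintro ⟨j, i⟩ ⟨j', i'⟩ h
      unfold gB at h
      split_ifs at h with h1 h2 h3
      · rw [Sum.inr.injEq, Prod.mk.injEq] at h
        obtain ⟨rfl, rfl⟩ := h
        simp only at h1 h2 ⊢
        omega
      · rw [Sum.inr.injEq, Prod.mk.injEq] at h
        obtain ⟨rfl, rfl⟩ := h
        simp only at h1 h2 ⊢
        omega
      · rw [Sum.inr.injEq, Prod.mk.injEq] at h
        obtain ⟨rfl, rfl⟩ := h
        simp only at h1 h2 h3 ⊢
        have h4 : j.val * (K + 1) = (j.val - 1) * (K + 1) + (K + 1) := by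
          obtain ⟨m, hm⟩ : ∃ m, j.val = m + 1 := ⟨j.val - 1, by omega⟩
          rw [hm, Nat.add_sub_cancel]
          ring
        omega) gval (gval_eq hK) (⟨N - 1, by omega⟩, ⟨K, by omega⟩) τ e₀
    (by simpa only [Fintype.card_prod, Fintype.card_fin] using hM)
    (by simpa only [Fintype.card_prod, Fintype.card_fin] using hℓ)
  refine ⟨b, fun x => (hb x).trans ?_⟩
  have h1 : gval x ((⟨N - 1, by omega⟩ : Fin N), (⟨K, by omega⟩ : Fin (K + 1))) =
      decide (Odd (univ.filter (fun j : Fin N => ∀ i, x (i, j) = true)).card) := by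
    unfold gval
    rw [if_neg (by simp)]
    have : cols x ⟨N - 1, by omega⟩ = univ.filter (fun j : Fin N => ∀ i, x (i, j) = true) := by
      unfold cols
      apply filter_congr
      intro j _
      constructor
      · rintro ⟨_, h⟩; exact h
      · intro h
        exact ⟨by change j.val ≤ N - 1; omega, h⟩
    rw [this]
  rw [h1]

open Pool.Agent.H541R2

theorem gsign_eq {g N : ℕ} (b : Fin g → Fin N → Bool) :
    gsign univ b = if Odd (univ.filter (fun j : Fin N => ∀ i, b i j = true)).card then -1 else 1 := by
  unfold gsign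
  rw [Finset.prod_ite, Finset.prod_const, Finset.prod_const_one, mul_one]
  split_ifs with h
  · exact h.neg_one_pow
  · exact (Nat.not_odd_iff_even.1 h).neg_one_pow

end Pool.Agent.W896.HP
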